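import Pool.Agent.H23.UVD.Base

/-!
# Targets: universal schemes, closedness, well ordered values, gap
-/

open TensorProduct Module Filter Topology MvPolynomial

namespace Pool.Agent.H23.UVD

open Pool.Agent.H15.Defect Pool.Agent.H12.Defect Pool.Agent.H14.MM Pool.Agent.H15.CX

universe u

section targets

/-- (R6) closure gives the inclusion of all powers in the universal schemes -/
def T_CLS (k : Type u) [Field k] : Prop :=
  ∀ (P : Type u) [CommRing P] [Algebra k P] [Module.Finite k P] (V : Set (Ideal P)) (d : ℕ)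
    (I : Ideal P), InCl k V d I → ∀ N : ℕ, UI k V N ≤ RingHom.ker (famMap k (fun _ : Fin N => I))

/-- (U) the limit theorem (helper23) -/
def T_LIM (k : Type u) [Field k] : Prop :=
  ∀ (P : Type u) [CommRing P] [Algebra k P] [Module.Finite k P] (V : Set (Ideal P)),
    V.Nonempty → (∀ I ∈ V, I ≠ ⊤) →
    (∀ N : ℕ, defect k (UQ k V N) ≠ ⊤) ∧
    (∀ N : ℕ, 1 ≤ N → LS k V ^ N ≤ DD k (UQ k V N)) ∧
    BddAbove ((fun I : Ideal P => Lam k (P ⧸ I)) '' V) ∧
    Tendsto (fun N : ℕ => (DD k (UQ k V N) : ℝ) ^ (1 / (N : ℝ))) atTop (𝓝 (LS k V))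

/-- (C) closedness (from T_LIM and T_CLS) -/
def T_CLO (k : Type u) [Field k] : Prop :=
  ∀ (P : Type u) [CommRing P] [Algebra k P] [Module.Finite k P] (V : Set (Ideal P)) (d : ℕ)
    (I : Ideal P), V.Nonempty → (∀ I ∈ V, I ≠ ⊤) → I ≠ ⊤ → InCl k V d I →
    Lam k (P ⧸ I) ≤ LS k V

/-- (R7) no strictly decreasing sequence of growth rates in a finite scheme (from T_CLO;
take `d = finrank k P`, which is at least the dimension of every annihilator) -/
def T_WFP (k : Type u) [Field k] : Prop :=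
  ∀ (P : Type u) [CommRing P] [Algebra k P] [Module.Finite k P] (s : ℕ → Ideal P),
    (∀ n, s n ≠ ⊤) → ¬ StrictAnti (fun n => Lam k (P ⧸ s n))

/-- (R9) all schemes of degree at most `d` are closed subschemes of one scheme -/
def T_PD (k : Type u) [Field k] : Prop :=
  ∀ (d : ℕ) (A : Type u) [CommRing A] [Algebra k A] [Module.Finite k A], finrank k A ≤ d →
    ∃ f : PD k d →ₐ[k] A, Function.Surjective f

/-- (R9') the scheme is finite -/
def T_PDF (k : Type u) [Field k] : Prop := ∀ d : ℕ, Module.Finite k (PD k d)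

/-- (R10) well ordered values for all finite schemes (from T_WFP, T_PD, T_PDF) -/
def T_WF (k : Type u) [Field k] : Prop :=
  {r : ℝ | ∃ (A : Type u) (_ : CommRing A) (_ : Algebra k A), Module.Finite k A ∧
    Nontrivial A ∧ Lam k A = r}.IsWF

/-- (R10) the gap -/
def T_GAP (k : Type u) [Field k] : Prop :=
  ∀ d : ℕ, ∃ ε : ℝ, 0 < ε ∧ ∀ (A : Type u) [CommRing A] [Algebra k A] [Module.Finite k A]
    [Nontrivial A] (n : ℕ), finrank k A ≤ d → 1 ≤ n →
    (DD k (⨂[k] _ : Fin n, A) : ℝ) < (d + ε) ^ n → Lam k A ≤ d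

/-- (R10) Q1 in degree at most `d` is the growth of one explicit sequence of schemes -/
def T_Q1D (k : Type u) [Field k] : Prop :=
  ∀ d : ℕ, 1 ≤ d →
    ((∀ (A : Type u) [CommRing A] [Algebra k A] [Module.Finite k A] [Nontrivial A],
        finrank k A ≤ d → Lam k A ≤ d) ↔
      Tendsto (fun N : ℕ => (DD k (UQ k {I : Ideal (PD k d) | I ≠ ⊤ ∧
        finrank k (PD k d ⧸ I) ≤ d} N) : ℝ) ^ (1 / (N : ℝ))) atTop (𝓝 d))

end targets

end Pool.Agent.H23.UVD
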