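import Pool.Agent.H23.UVD.Letters
import Pool.Agent.H23.UVD.Targets

/-!
# The limit theorem
-/

open TensorProduct Module Filter Topology

namespace Pool.Agent.H23.UVD

open Pool.Agent.H15.Defect Pool.Agent.H12.Defect Pool.Agent.H14.MM Pool.Agent.H15.CX
open Pool.Agent.H2.WG Pool.Agent.H14.RF

universe u

variable {k : Type u} [Field k] {P : Type u} [CommRing P] [Algebra k P]

theorem famMap_surjective {J : Type} [Fintype J] (I : J → Ideal P) :
    Function.Surjective (famMap k I) := by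
  intro z
  induction z using PiTensorProduct.induction_on with
  | smul_tprod r f =>
    choose x hx using fun i => Ideal.Quotient.mk_surjective (f i)
    refine ⟨r • PiTensorProduct.tprod k x, ?_⟩
    rw [map_smul, famMap_tprod]
    congr 2
    funext i
    exact hx i
  | add x y hx hy =>
    obtain ⟨x', rfl⟩ := hx
    obtain ⟨y', rfl⟩ := hy
    exact ⟨x' + y', map_add _ _ _⟩

theorem UI_le {V : Set (Ideal P)} {I : Ideal P} (hI : I ∈ V) (N : ℕ) :
    UI k V N ≤ RingHom.ker (famMap k fun _ : Fin N => I) :=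
  iInf₂_le I hI

theorem dle_member {V : Set (Ideal P)} {I : Ideal P} {N r : ℕ}
    (hI : UI k V N ≤ RingHom.ker (famMap k fun _ : Fin N => I))
    (h : Dle k (UQ k V N) r) : Dle k (⨂[k] _ : Fin N, P ⧸ I) r :=
  h.of_surjective (Ideal.Quotient.liftₐ (UI k V N) (famMap k fun _ : Fin N => I) hI) (by
    intro z
    obtain ⟨x, rfl⟩ := famMap_surjective (k := k) (fun _ : Fin N => I) z
    exact ⟨Ideal.Quotient.mk _ x, rfl⟩)

section DD

variable {A : Type u} [CommRing A] [Algebra k A]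

theorem DD_le {N : ℕ} (h : Dle k A N) : DD k A ≤ N := (defect_eq h).2.2

theorem dle_DD {N : ℕ} (h : Dle k A N) : Dle k A (DD k A) := dle_defect h

end DD

section finite

variable [Module.Finite k P]

theorem exists_dle_UQ [IsAlgClosed k] (V : Set (Ideal P)) (N : ℕ) :
    ∃ r, Dle k (UQ k V N) r := by
  obtain ⟨r, hr⟩ := exists_dle (k := k) P
  exact ⟨_, (hr.pow N).of_surjective (Ideal.Quotient.mkₐ k (UI k V N))
    (Ideal.Quotient.mkₐ_surjective k _)⟩

/-- the bound for multiples of `N` -/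
theorem dle_UQ_mul {V : Set (Ideal P)} {N p : ℕ} {I : Fin p → Ideal P} (h : Lett k V N I)
    {C ρ : ℝ} (hD : ∀ j m, ∃ D : ℕ, Dle k (⨂[k] _ : Fin m, P ⧸ I j) D ∧ (D : ℝ) ≤ C * ρ ^ m)
    (M : ℕ) : ∃ r : ℕ, Dle k (UQ k V (M * N)) r ∧
      (r : ℝ) ≤ (p : ℝ) ^ M * (C ^ p * ρ ^ (M * N)) := by
  classical
  choose D hD1 hD2 using hD
  let e : Fin (M * N) ≃ Fin M × Fin N := finProdFinEquiv.symm
  let m : (Fin M → Fin p) → Fin p → ℕ := fun w j => Nat.card {i : Fin (M * N) // w (e i).1 = j}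
  have h1 : ∀ w : Fin M → Fin p, Dle k ((⨂[k] _ : Fin (M * N), P) ⧸
      RingHom.ker (famMap k fun i : Fin (M * N) => I (w (e i).1))) (∏ j, D j (m w j)) :=
    fun w => dle_word I (fun i : Fin (M * N) => w (e i).1) (m w) (fun _ => rfl)
      (fun j => D j (m w j)) (fun j => hD1 j (m w j))
  have h2 := dle_iInf (fun w : Fin M → Fin p =>
    RingHom.ker (famMap k fun i : Fin (M * N) => I (w (e i).1))) _ h1
  have h3 : (⨅ w : Fin M → Fin p, RingHom.ker (famMap k fun i : Fin (M * N) => I (w (e i).1))) ≤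
      UI k V (M * N) := le_iInf₂ fun I' hI' => words_le h M e hI'
  refine ⟨_, dle_of_le h2 h3, ?_⟩
  push_cast
  have h4 : ∀ w : Fin M → Fin p, ∏ j, (D j (m w j) : ℝ) ≤ C ^ p * ρ ^ (M * N) := by
    intro w
    calc ∏ j, (D j (m w j) : ℝ) ≤ ∏ j : Fin p, (C * ρ ^ (m w j)) :=
          Finset.prod_le_prod (fun j _ => Nat.cast_nonneg _) fun j _ => hD2 j _
      _ = C ^ p * ρ ^ (M * N) := by
          rw [Finset.prod_mul_distrib, Finset.prod_const, Finset.card_univ, Fintype.card_fin,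
            Finset.prod_pow_eq_pow_sum]
          congr 2
          have h5 := Nat.card_congr (Equiv.sigmaFiberEquiv fun i : Fin (M * N) => w (e i).1)
          rw [Nat.card_sigma, Nat.card_eq_fintype_card, Fintype.card_fin] at h5
          exact h5
  refine (Finset.sum_le_sum fun w _ => h4 w).trans (le_of_eq ?_)
  rw [Finset.sum_const, Finset.card_univ, Fintype.card_fun, Fintype.card_fin, Fintype.card_fin,
    nsmul_eq_mul]
  push_cast
  ring

/-- monotonicity -/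
theorem dle_pred {V : Set (Ideal P)} (hV : ∀ I ∈ V, I ≠ ⊤) {n r : ℕ}
    (h : Dle k (UQ k V (n + 1)) r) : Dle k (UQ k V n) r := by
  classical
  let φ : (⨂[k] _ : Fin n, P) →ₐ[k] UQ k V (n + 1) :=
    (Ideal.Quotient.mkₐ k (UI k V (n + 1))).comp (succHom k P n)
  have hker : RingHom.ker φ ≤ UI k V n := by
    intro z hz
    rw [RingHom.mem_ker] at hz
    have hz' : succHom k P n z ∈ UI k V (n + 1) := Ideal.Quotient.eq_zero_iff_mem.mp hz
    rw [UI, Submodule.mem_iInf]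
    intro I
    rw [Submodule.mem_iInf]
    intro hI
    rw [mem_ker_famMap]
    intro f hf
    have h1 := UI_le (k := k) hI (n + 1) hz'
    rw [mem_ker_famMap] at h1
    have hnot : (1 : P) ∉ I.restrictScalars k := by
      intro h2
      exact hV I hI ((Ideal.eq_top_iff_one I).mpr h2)
    obtain ⟨ℓ, hℓ1, hℓ⟩ := Submodule.exists_le_ker_of_notMem hnot
    have h2 := h1 (Fin.cons (α := fun _ => P →ₗ[k] k) ℓ f) (by
      intro i
      refine Fin.cases ?_ (fun j => ?_) i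
      · intro a ha
        exact hℓ ha
      · intro a ha
        exact hf j a ha)
    have h3 : pF (Fin.cons (α := fun _ => P →ₗ[k] k) ℓ f) ∘ₗ (succHom k P n).toLinearMap =
        ℓ 1 • pF f := by
      refine PiTensorProduct.ext ?_
      ext x
      simp only [LinearMap.compMultilinearMap_apply, LinearMap.comp_apply,
        AlgHom.toLinearMap_apply, LinearMap.smul_apply, smul_eq_mul]
      rw [succHom_tprod, pF_tprod, pF_tprod, Fin.prod_univ_succ]
      rfl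
    have h4 := congrArg (fun g => g z) h3
    simp only [LinearMap.comp_apply, AlgHom.toLinearMap_apply, LinearMap.smul_apply,
      smul_eq_mul] at h4
    rw [h2] at h4
    exact (mul_eq_zero.mp h4.symm).resolve_left hℓ1
  exact dle_of_le (h.of_injective (Ideal.kerLiftAlg φ) (Ideal.kerLiftAlg_injective φ)) hker

theorem dle_mono {V : Set (Ideal P)} (hV : ∀ I ∈ V, I ≠ ⊤) {n n' r : ℕ} (hn : n ≤ n')
    (h : Dle k (UQ k V n') r) : Dle k (UQ k V n) r := by
  induction n', hn using Nat.le_induction with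
  | base => exact h
  | succ m _ ih => exact ih (dle_pred hV h)

end finite

section rate

variable [IsAlgClosed k] [Module.Finite k P] {V : Set (Ideal P)}

theorem nontrivial_quot {I : Ideal P} (hI : I ≠ ⊤) : Nontrivial (P ⧸ I) :=
  Ideal.Quotient.nontrivial_iff.mpr hI

theorem Lam_pow_le_DD {I : Ideal P} (V : Set (Ideal P)) {N : ℕ} (hN : 1 ≤ N)
    (hI : UI k V N ≤ RingHom.ker (famMap k fun _ : Fin N => I)) :
    Lam k (P ⧸ I) ^ N ≤ DD k (UQ k V N) := by
  obtain ⟨r, hr⟩ := exists_dle_UQ (k := k) V N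
  have h1 := cdeg_le_of_dle (dle_member hI (dle_DD hr))
  refine (Lam_pow_le hN).trans ?_
  exact_mod_cast h1

theorem bddAbove_Lam (V : Set (Ideal P)) :
    BddAbove ((fun I : Ideal P => Lam k (P ⧸ I)) '' V) := by
  refine ⟨DD k (UQ k V 1), ?_⟩
  rintro _ ⟨I, hI, rfl⟩
  have h1 := Lam_pow_le_DD (k := k) V le_rfl (UI_le hI 1)
  rwa [pow_one] at h1

theorem Lam_le_LS {I : Ideal P} (hI : I ∈ V) : Lam k (P ⧸ I) ≤ LS k V :=
  le_csSup (bddAbove_Lam V) ⟨I, hI, rfl⟩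

theorem one_le_LS (hne : V.Nonempty) (hV : ∀ I ∈ V, I ≠ ⊤) : 1 ≤ LS k V := by
  obtain ⟨I, hI⟩ := hne
  have := nontrivial_quot (hV I hI)
  exact one_le_Lam.trans (Lam_le_LS hI)

theorem LS_pow_le (hne : V.Nonempty) (hV : ∀ I ∈ V, I ≠ ⊤) {N : ℕ} (hN : 1 ≤ N) :
    LS k V ^ N ≤ DD k (UQ k V N) := by
  have hx : (0 : ℝ) ≤ DD k (UQ k V N) := Nat.cast_nonneg _
  have h1 : LS k V ≤ (DD k (UQ k V N) : ℝ) ^ (1 / (N : ℝ)) := by
    refine csSup_le (hne.image _) ?_
    rintro _ ⟨I, hI, rfl⟩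
    exact le_rpow_root hN Lam_nonneg (Lam_pow_le_DD V hN (UI_le hI N))
  calc LS k V ^ N ≤ ((DD k (UQ k V N) : ℝ) ^ (1 / (N : ℝ))) ^ N :=
        pow_le_pow_left₀ (zero_le_one.trans (one_le_LS hne hV)) h1 N
    _ = _ := rpow_root_pow hN hx

theorem DD_UQ_le_pow (hne : V.Nonempty) (hV : ∀ I ∈ V, I ≠ ⊤) {ρ : ℝ} (hρ : LS k V < ρ) :
    ∀ᶠ n : ℕ in atTop, (DD k (UQ k V n) : ℝ) ≤ ρ ^ n := by
  have hg := one_le_LS (k := k) hne hV
  set K := finrank k P * finrank k P with hK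
  set ρ₁ : ℝ := LS k V + (ρ - LS k V) / 3 with hρ₁
  set ρ₂ : ℝ := LS k V + 2 * (ρ - LS k V) / 3 with hρ₂
  have h01 : LS k V < ρ₁ := by rw [hρ₁]; linarith
  have h12 : ρ₁ < ρ₂ := by rw [hρ₁, hρ₂]; linarith
  have h23 : ρ₂ < ρ := by rw [hρ₂]; linarith
  have hρ₁0 : 0 < ρ₁ := by linarith
  have hρ₂1 : 1 ≤ ρ₂ := by linarith
  obtain ⟨N, hN, hN1⟩ := ((eventually_poly_le hρ₁0 h12 1 1 K).and
    (eventually_ge_atTop 1)).exists
  obtain ⟨p, I, hp, hIV, hI⟩ := exists_letters (k := k) V N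
  have hC : ∀ j, ∃ C : ℝ, ∀ m, ∃ D : ℕ, Dle k (⨂[k] _ : Fin m, P ⧸ I j) D ∧
      (D : ℝ) ≤ C * ρ₁ ^ m := by
    intro j
    have := nontrivial_quot (hV _ (hIV j))
    exact bd_of_Lam_le (Lam_le_LS (hIV j)) ρ₁ h01
  choose C hC using hC
  have hC0 : ∀ j, 0 ≤ C j := by
    intro j
    obtain ⟨D, -, hD⟩ := hC j 0
    have : (0 : ℝ) ≤ D := Nat.cast_nonneg _
    rw [pow_zero, mul_one] at hD
    linarith
  set C₀ : ℝ := ∑ j, C j with hC₀
  have hCj : ∀ j, C j ≤ C₀ := fun j =>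
    Finset.single_le_sum (f := C) (fun j _ => hC0 j) (Finset.mem_univ j)
  have hC₀0 : 0 ≤ C₀ := Finset.sum_nonneg fun j _ => hC0 j
  have hD : ∀ j m, ∃ D : ℕ, Dle k (⨂[k] _ : Fin m, P ⧸ I j) D ∧ (D : ℝ) ≤ C₀ * ρ₁ ^ m := by
    intro j m
    obtain ⟨D, h1, h2⟩ := hC j m
    exact ⟨D, h1, h2.trans (mul_le_mul_of_nonneg_right (hCj j) (by positivity))⟩
  have hpN : (p : ℝ) * ρ₁ ^ N ≤ ρ₂ ^ N := by
    refine le_trans ?_ hN
    refine mul_le_mul_of_nonneg_right ?_ (by positivity)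
    calc (p : ℝ) ≤ (((N + 1) ^ K : ℕ) : ℝ) := by exact_mod_cast hp
      _ = _ := by push_cast; ring
  have hM : ∀ M : ℕ, ∃ r : ℕ, Dle k (UQ k V (M * N)) r ∧
      (r : ℝ) ≤ C₀ ^ p * ρ₂ ^ (M * N) := by
    intro M
    obtain ⟨r, hr, hr'⟩ := dle_UQ_mul hI hD M
    refine ⟨r, hr, hr'.trans ?_⟩
    calc (p : ℝ) ^ M * (C₀ ^ p * ρ₁ ^ (M * N)) = C₀ ^ p * ((p : ℝ) * ρ₁ ^ N) ^ M := by
          rw [mul_pow, ← pow_mul, mul_comm N M]; ring
      _ ≤ C₀ ^ p * (ρ₂ ^ N) ^ M := by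
          refine mul_le_mul_of_nonneg_left ?_ (by positivity)
          exact pow_le_pow_left₀ (by positivity) hpN M
      _ = _ := by rw [← pow_mul, mul_comm N M]
  have hall : ∀ n : ℕ, (DD k (UQ k V n) : ℝ) ≤ (C₀ ^ p * ρ₂ ^ N) * ρ₂ ^ n := by
    intro n
    have hn : n ≤ (n / N + 1) * N := by
      have := Nat.div_add_mod n N
      have := Nat.mod_lt n (show 0 < N by omega)
      nlinarith
    have hn' : (n / N + 1) * N ≤ n + N := by
      have := Nat.div_mul_le_self n N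
      nlinarith
    obtain ⟨r, hr, hr'⟩ := hM (n / N + 1)
    have h1 : (DD k (UQ k V n) : ℝ) ≤ r := by exact_mod_cast DD_le (dle_mono hV hn hr)
    have h6 : ρ₂ ^ ((n / N + 1) * N) ≤ ρ₂ ^ N * ρ₂ ^ n := by
      rw [← pow_add, add_comm N n]
      exact pow_le_pow_right₀ hρ₂1 hn'
    refine h1.trans (hr'.trans ?_)
    rw [mul_assoc]
    exact mul_le_mul_of_nonneg_left h6 (by positivity)
  filter_upwards [eventually_poly_le (show 0 < ρ₂ by linarith) h23 (C₀ ^ p * ρ₂ ^ N) 0 0]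
    with n hn
  refine (hall n).trans ?_
  simpa using hn

theorem tendsto_DD (hne : V.Nonempty) (hV : ∀ I ∈ V, I ≠ ⊤) :
    Tendsto (fun N : ℕ => (DD k (UQ k V N) : ℝ) ^ (1 / (N : ℝ))) atTop (𝓝 (LS k V)) := by
  refine growth_limit (lt_of_lt_of_le zero_lt_one (one_le_LS hne hV)) 0
    (fun _ => Nat.cast_nonneg _) (fun N hN => ?_) (fun _ hρ => DD_UQ_le_pow hne hV hρ)
  have := LS_pow_le (k := k) hne hV hN
  simpa using this

end rate

theorem pf_LIM (k : Type u) [Field k] [IsAlgClosed k] : T_LIM k := by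
  intro P _ _ _ V hne hV
  refine ⟨fun N => ?_, fun N hN => LS_pow_le hne hV hN, bddAbove_Lam V, tendsto_DD hne hV⟩
  obtain ⟨r, hr⟩ := exists_dle_UQ (k := k) V N
  exact (defect_eq hr).1

theorem UI_insert {k : Type u} [Field k] {P : Type u} [CommRing P] [Algebra k P]
    {V : Set (Ideal P)} {I : Ideal P} {N : ℕ}
    (h : UI k V N ≤ RingHom.ker (famMap k fun _ : Fin N => I)) :
    UI k (insert I V) N = UI k V N := by
  rw [UI, iInf_insert]
  exact inf_eq_right.mpr h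

theorem pf_CLO (k : Type u) [Field k] [IsAlgClosed k] (hCLS : T_CLS k) : T_CLO k := by
  intro P _ _ _ V d I hne hV hI hcl
  have h1 : ∀ N : ℕ, UI k V N ≤ RingHom.ker (famMap k (fun _ : Fin N => I)) :=
    hCLS P V d I hcl
  refine le_of_forall_gt_imp_ge_of_dense fun ρ hρ => ?_
  obtain ⟨N, hN, hN1⟩ := ((DD_UQ_le_pow hne hV hρ).and (eventually_ge_atTop 1)).exists
  have h2 := (Lam_pow_le_DD V hN1 (h1 N)).trans hN
  have hρ0 : 0 ≤ ρ := (zero_le_one.trans (one_le_LS hne hV)).trans hρ.le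
  exact le_of_pow_le_pow_left₀ (by omega) hρ0 h2

end Pool.Agent.H23.UVD
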