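import Pool.Agent.H23.UVD.Defs

/-!
# Closure, suprema of growth rates, least degrees of smoothable covers
-/

open TensorProduct Module Filter Topology MvPolynomial

namespace Pool.Agent.H23.UVD

open Pool.Agent.H15.Defect Pool.Agent.H12.Defect Pool.Agent.H14.MM Pool.Agent.H15.CX

universe u

section defs

variable (k : Type u) [Field k] {P : Type u} [CommRing P] [Algebra k P]

/-- The functionals `T 0, …, T (d - 1)` span the annihilator of `I` in the dual space of `P`. -/
def Spans (I : Ideal P) {d : ℕ} (T : Fin d → P →ₗ[k] k) : Prop :=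
  Submodule.span k (Set.range T) = (I.restrictScalars k).dualAnnihilator

/-- `I` is in the closure of `V`: some `d`-tuple `T` of functionals which spans the annihilator of
`I` is a zero of all polynomials in the values `T i a` (`i < d`, `a ∈ P`) which vanish at all
`d`-tuples which span the annihilator of a member of `V`. -/
def InCl (V : Set (Ideal P)) (d : ℕ) (I : Ideal P) : Prop :=
  ∃ T : Fin d → P →ₗ[k] k, Spans k I T ∧ ∀ F : MvPolynomial (Fin d × P) k,
    (∀ I' ∈ V, ∀ T' : Fin d → P →ₗ[k] k, Spans k I' T' →
      eval (fun q : Fin d × P => T' q.1 q.2) F = 0) →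
    eval (fun q : Fin d × P => T q.1 q.2) F = 0

/-- the supremum of the growth rates `L(Spec P ⧸ I)`, `I` in `V` -/
noncomputable def LS (V : Set (Ideal P)) : ℝ := sSup ((fun I : Ideal P => Lam k (P ⧸ I)) '' V)

/-- the least degree of a smoothable scheme containing `Spec A` -/
noncomputable def DD (A : Type u) [CommRing A] [Algebra k A] : ℕ :=
  finrank k A + (defect k A).toNat

/-- `d` copies of the fat point `Spec k[x_1, …, x_d] ⧸ (x_1, …, x_d) ^ d` -/
abbrev PD (d : ℕ) : Type u :=
  Fin d → (MvPolynomial (Fin d) k ⧸ (Ideal.span (Set.range (X : Fin d → MvPolynomial (Fin d) k))) ^ d)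

end defs

end Pool.Agent.H23.UVD
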