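import Pool.Agent.H23.UVD.Defs

/-!
# Degrees of smoothable covers of unions and of words
-/

open TensorProduct Module

namespace Pool.Agent.H23.UVD

open Pool.Agent.H15.Defect Pool.Agent.H12.Defect

universe u

variable {k : Type u} [Field k]

section tensor

/-- `x ↦ 1 ⊗ x` for families of algebras -/
noncomputable def succD {n : ℕ} (A : Fin (n + 1) → Type u) [∀ i, CommRing (A i)]
    [∀ i, Algebra k (A i)] : (⨂[k] i : Fin n, A i.succ) →ₐ[k] (⨂[k] i : Fin (n + 1), A i) :=
  PiTensorProduct.liftAlgHom ((PiTensorProduct.tprod k (s := A)).curryLeft 1)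
    (by
      rw [MultilinearMap.curryLeft_apply, PiTensorProduct.one_def]
      congr 1
      funext i
      refine Fin.cases ?_ (fun j => ?_) i <;> rfl)
    (by
      intro x y
      rw [MultilinearMap.curryLeft_apply, MultilinearMap.curryLeft_apply,
        MultilinearMap.curryLeft_apply, PiTensorProduct.tprod_mul_tprod]
      congr 1
      funext i
      refine Fin.cases ?_ (fun j => ?_) i
      · simp
      · simp)

theorem succD_tprod {n : ℕ} (A : Fin (n + 1) → Type u) [∀ i, CommRing (A i)]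
    [∀ i, Algebra k (A i)] (x : ∀ i : Fin n, A i.succ) :
    succD (k := k) A (PiTensorProduct.tprod k x) = PiTensorProduct.tprod k (Fin.cons (α := A) 1 x) := by
  simp [succD]

/-- `A 0 ⊗ ⨂ A (i + 1) → ⨂ A i` -/
noncomputable def consD {n : ℕ} (A : Fin (n + 1) → Type u) [∀ i, CommRing (A i)]
    [∀ i, Algebra k (A i)] :
    (A 0 ⊗[k] (⨂[k] i : Fin n, A i.succ)) →ₐ[k] (⨂[k] i : Fin (n + 1), A i) :=
  Algebra.TensorProduct.productMap
    (PiTensorProduct.singleAlgHom (R := k) (A := A) 0) (succD A)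

theorem consD_tmul {n : ℕ} (A : Fin (n + 1) → Type u) [∀ i, CommRing (A i)]
    [∀ i, Algebra k (A i)] (a : A 0) (x : ∀ i : Fin n, A i.succ) :
    consD (k := k) A (a ⊗ₜ PiTensorProduct.tprod k x) =
      PiTensorProduct.tprod k (Fin.cons (α := A) a x) := by
  rw [consD, Algebra.TensorProduct.productMap_apply_tmul, succD_tprod,
    PiTensorProduct.singleAlgHom_apply, PiTensorProduct.tprod_mul_tprod]
  congr 1
  funext i
  refine Fin.cases ?_ (fun j => ?_) i
  · simp
  · simp

theorem consD_surjective {n : ℕ} (A : Fin (n + 1) → Type u) [∀ i, CommRing (A i)]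
    [∀ i, Algebra k (A i)] : Function.Surjective (consD (k := k) A) := by
  intro z
  induction z using PiTensorProduct.induction_on with
  | smul_tprod r f =>
    refine ⟨r • (f 0 ⊗ₜ PiTensorProduct.tprod k (Fin.tail f)), ?_⟩
    rw [map_smul, consD_tmul, Fin.cons_self_tail]
  | add x y hx hy =>
    obtain ⟨x', rfl⟩ := hx
    obtain ⟨y', rfl⟩ := hy
    exact ⟨x' + y', map_add _ _ _⟩

theorem dle_piTensor : ∀ {n : ℕ} (A : Fin n → Type u) [∀ i, CommRing (A i)]
    [∀ i, Algebra k (A i)] (N : Fin n → ℕ), (∀ i, Dle k (A i) (N i)) →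
    Dle k (⨂[k] i, A i) (∏ i, N i)
  | 0, A, _, _, N, _ => by
    rw [Fin.prod_univ_zero]
    refine (dle_self k).of_surjective (Algebra.ofId k _) ?_
    intro z
    induction z using PiTensorProduct.induction_on with
    | smul_tprod r f =>
      refine ⟨r, ?_⟩
      rw [Algebra.ofId_apply, Algebra.algebraMap_eq_smul_one, PiTensorProduct.one_def]
      congr 2
      exact Subsingleton.elim _ _
    | add x y hx hy =>
      obtain ⟨x', hx'⟩ := hx
      obtain ⟨y', hy'⟩ := hy
      exact ⟨x' + y', by rw [map_add, hx', hy']⟩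
  | n + 1, A, _, _, N, h => by
    rw [Fin.prod_univ_succ]
    exact ((h 0).tensor (dle_piTensor (fun i : Fin n => A i.succ) (fun i => N i.succ)
      fun i => h i.succ)).of_surjective (consD A) (consD_surjective A)

theorem prod_single {J : Type} [Fintype J] [DecidableEq J] {A : J → Type u} [∀ i, CommRing (A i)]
    [∀ i, Algebra k (A i)] (y : ∀ i, A i) :
    ∏ i, PiTensorProduct.singleAlgHom (R := k) (A := A) i (y i) = PiTensorProduct.tprod k y := by
  simp only [PiTensorProduct.singleAlgHom_apply, MonoidHom.mulSingle_apply]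
  rw [← PiTensorProduct.tprod_prod, Finset.univ_prod_mulSingle]

end tensor

section inf

variable {R : Type u} [CommRing R] [Algebra k R]

theorem dle_inf {K K' : Ideal R} {N N' : ℕ} (h : Dle k (R ⧸ K) N) (h' : Dle k (R ⧸ K') N') :
    Dle k (R ⧸ (K ⊓ K')) (N + N') := by
  let φ : R →ₐ[k] (R ⧸ K) × (R ⧸ K') :=
    (Ideal.Quotient.mkₐ k K).prod (Ideal.Quotient.mkₐ k K')
  have hker : RingHom.ker φ = K ⊓ K' := by
    ext x
    rw [RingHom.mem_ker, Submodule.mem_inf]
    have : φ x = (Ideal.Quotient.mk K x, Ideal.Quotient.mk K' x) := rfl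
    rw [this, Prod.mk_eq_zero, Ideal.Quotient.eq_zero_iff_mem, Ideal.Quotient.eq_zero_iff_mem]
  exact ((h.prod h').of_injective (Ideal.kerLiftAlg φ) (Ideal.kerLiftAlg_injective φ)).of_equiv
    (Ideal.quotientEquivAlgOfEq k hker)

theorem dle_quot_top {K : Ideal R} (hK : K = ⊤) : Dle k (R ⧸ K) 0 := by
  have : Subsingleton (R ⧸ K) := Ideal.Quotient.subsingleton_iff.mpr hK
  exact dle_subsingleton

theorem dle_iInf_finset {ι : Type*} [DecidableEq ι] (K : ι → Ideal R) (N : ι → ℕ)
    (h : ∀ i, Dle k (R ⧸ K i) (N i)) (s : Finset ι) :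
    Dle k (R ⧸ ⨅ i ∈ s, K i) (∑ i ∈ s, N i) := by
  induction s using Finset.induction_on with
  | empty =>
    rw [Finset.sum_empty]
    exact dle_quot_top (by simp)
  | insert a s ha ih =>
    rw [Finset.sum_insert ha]
    exact (dle_inf (h a) ih).of_equiv (Ideal.quotientEquivAlgOfEq k (by
      rw [Finset.iInf_insert]))

theorem dle_iInf {ι : Type*} [Fintype ι] (K : ι → Ideal R) (N : ι → ℕ)
    (h : ∀ i, Dle k (R ⧸ K i) (N i)) : Dle k (R ⧸ ⨅ i, K i) (∑ i, N i) := by
  classical
  exact (dle_iInf_finset K N h Finset.univ).of_equiv (Ideal.quotientEquivAlgOfEq k (by simp))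

theorem dle_of_le {K K' : Ideal R} {N : ℕ} (h : Dle k (R ⧸ K) N) (hK : K ≤ K') :
    Dle k (R ⧸ K') N :=
  h.of_surjective (Ideal.Quotient.factorₐ k hK) (Ideal.Quotient.factor_surjective hK)

end inf

section word

variable {P : Type u} [CommRing P] [Algebra k P]

theorem prod_fiber {J : Type} [Fintype J] {p : ℕ} (w : J → Fin p) {α : Type*} [CommMonoid α]
    (f : J → α) : ∏ i, f i = ∏ j, ∏ i : {i // w i = j}, f i.1 := by
  classical
  rw [← Finset.prod_fiberwise (s := Finset.univ) (g := w)]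
  refine Finset.prod_congr rfl fun j _ => ?_
  rw [Finset.prod_subtype (Finset.univ.filter fun i => w i = j) (p := fun i => w i = j)]
  intro x
  simp

/-- **Words.** -/
theorem dle_word [Module.Finite k P] {J : Type} [Fintype J] {p : ℕ} (I : Fin p → Ideal P)
    (w : J → Fin p) (m : Fin p → ℕ) (hm : ∀ j, Nat.card {i // w i = j} = m j) (D : Fin p → ℕ)
    (hD : ∀ j, Dle k (⨂[k] _ : Fin (m j), P ⧸ I j) (D j)) :
    Dle k ((⨂[k] _ : J, P) ⧸ RingHom.ker (famMap k fun i => I (w i))) (∏ j, D j) := by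
  classical
  have e : ∀ j, {i // w i = j} ≃ Fin (m j) := fun j =>
    Finite.equivFinOfCardEq (hm j)
  have hT : Dle k (⨂[k] j : Fin p, (⨂[k] _ : Fin (m j), P ⧸ I j)) (∏ j, D j) :=
    dle_piTensor (fun j => ⨂[k] _ : Fin (m j), P ⧸ I j) D hD
  let h := Pool.Agent.H14.RF.prodHom (k := k) (A := P)
    (B := ⨂[k] j : Fin p, (⨂[k] _ : Fin (m j), P ⧸ I j)) fun i : J =>
    (PiTensorProduct.singleAlgHom (R := k) (A := fun j => ⨂[k] _ : Fin (m j), P ⧸ I j) (w i)).comp
      ((PiTensorProduct.singleAlgHom (R := k) (A := fun _ : Fin (m (w i)) => P ⧸ I (w i))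
        (e (w i) ⟨i, rfl⟩)).comp (Ideal.Quotient.mkₐ k (I (w i))))
  have hval : ∀ x : J → P, h (PiTensorProduct.tprod k x) =
      PiTensorProduct.tprod k fun j => PiTensorProduct.tprod k fun l : Fin (m j) =>
        Ideal.Quotient.mk (I j) (x ((e j).symm l).1) := by
    intro x
    rw [Pool.Agent.H14.RF.prodHom_tprod, prod_fiber w, ← prod_single]
    refine Finset.prod_congr rfl fun j _ => ?_
    have h1 : ∀ i : {i // w i = j},
        ((PiTensorProduct.singleAlgHom (R := k) (A := fun j => ⨂[k] _ : Fin (m j), P ⧸ I j)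
          (w i.1)).comp ((PiTensorProduct.singleAlgHom (R := k)
          (A := fun _ : Fin (m (w i.1)) => P ⧸ I (w i.1)) (e (w i.1) ⟨i.1, rfl⟩)).comp
          (Ideal.Quotient.mkₐ k (I (w i.1))))) (x i.1) =
        PiTensorProduct.singleAlgHom (R := k) (A := fun j => ⨂[k] _ : Fin (m j), P ⧸ I j) j
          (PiTensorProduct.singleAlgHom (R := k) (A := fun _ : Fin (m j) => P ⧸ I j) (e j i)
            (Ideal.Quotient.mk (I j) (x i.1))) := by
      rintro ⟨i, rfl⟩
      rfl
    rw [Finset.prod_congr rfl fun i _ => h1 i, ← map_prod]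
    congr 1
    rw [← prod_single, ← (e j).symm.prod_comp]
    refine Finset.prod_congr rfl fun l _ => ?_
    rw [Equiv.apply_symm_apply]
  have hker : RingHom.ker h ≤ RingHom.ker (famMap k fun i => I (w i)) := by
    intro z hz
    rw [RingHom.mem_ker] at hz
    rw [mem_ker_famMap]
    intro f hf
    let f'' : ∀ j, {i // w i = j} → (P ⧸ I j) →ₗ[k] k := fun j i =>
      Submodule.liftQ ((I j).restrictScalars k) (f i.1) (fun a ha => hf i.1 a (by
        rw [i.2]; exact ha))
    have h1 : pF f = pF (fun j => pF fun l : Fin (m j) => f'' j ((e j).symm l)) ∘ₗ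
        h.toLinearMap := by
      refine PiTensorProduct.ext ?_
      ext x
      simp only [LinearMap.compMultilinearMap_apply, LinearMap.comp_apply,
        AlgHom.toLinearMap_apply]
      rw [hval, pF_tprod, pF_tprod, prod_fiber w]
      refine Finset.prod_congr rfl fun j _ => ?_
      rw [pF_tprod, ← (e j).symm.prod_comp]
      rfl
    rw [h1, LinearMap.comp_apply, AlgHom.toLinearMap_apply, hz, map_zero]
  exact dle_of_le (hT.of_injective (Ideal.kerLiftAlg h) (Ideal.kerLiftAlg_injective h)) hker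

end word

end Pool.Agent.H23.UVD
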