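import Pool.Agent.H15.CX.Growth

/-!
# Unions of powers of closed subschemes of a finite scheme
-/

open TensorProduct Module

namespace Pool.Agent.H23.UVD

universe u

section defs

variable (k : Type u) [Field k] {P : Type u} [CommRing P] [Algebra k P]

/-- The homomorphism `P ⊗ ⋯ ⊗ P → ⨂ i, P ⧸ I i`. -/
noncomputable def famMap {J : Type} [Fintype J] (I : J → Ideal P) :
    (⨂[k] _ : J, P) →ₐ[k] (⨂[k] i : J, P ⧸ I i) :=
  PiTensorProduct.liftAlgHom
    ((PiTensorProduct.tprod k).compLinearMap (fun i => (Ideal.Quotient.mkₐ k (I i)).toLinearMap))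
    (by
      rw [MultilinearMap.compLinearMap_apply, PiTensorProduct.one_def]
      congr 1)
    (by
      intro x y
      rw [MultilinearMap.compLinearMap_apply, MultilinearMap.compLinearMap_apply,
        MultilinearMap.compLinearMap_apply, PiTensorProduct.tprod_mul_tprod]
      congr 1)

/-- The ideal of the smallest closed subscheme `U_N` of `(Spec P) ^ N` which contains
`(Spec P ⧸ I) ^ N` for every `I` in `V`. -/
noncomputable def UI (V : Set (Ideal P)) (N : ℕ) : Ideal (⨂[k] _ : Fin N, P) :=
  ⨅ I ∈ V, RingHom.ker (famMap k (fun _ : Fin N => I))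

/-- The coordinate ring of `U_N`. -/
abbrev UQ (V : Set (Ideal P)) (N : ℕ) : Type u := (⨂[k] _ : Fin N, P) ⧸ UI k V N

end defs

section basic

variable {k : Type u} [Field k] {P : Type u} [CommRing P] [Algebra k P]

theorem famMap_tprod {J : Type} [Fintype J] (I : J → Ideal P) (x : J → P) :
    famMap k I (PiTensorProduct.tprod k x) =
      PiTensorProduct.tprod k fun i => Ideal.Quotient.mk (I i) (x i) := by
  simp only [famMap, PiTensorProduct.liftAlgHom, AlgHom.ofLinearMap_apply, PiTensorProduct.lift.tprod]
  rfl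

/-- the product functional -/
noncomputable def pF {J : Type} [Fintype J] {A : J → Type u} [∀ i, CommRing (A i)]
    [∀ i, Algebra k (A i)] (f : ∀ i, A i →ₗ[k] k) : (⨂[k] i, A i) →ₗ[k] k :=
  PiTensorProduct.lift ((MultilinearMap.mkPiAlgebra k J k).compLinearMap f)

theorem pF_tprod {J : Type} [Fintype J] {A : J → Type u} [∀ i, CommRing (A i)]
    [∀ i, Algebra k (A i)] (f : ∀ i, A i →ₗ[k] k) (x : ∀ i, A i) :
    pF f (PiTensorProduct.tprod k x) = ∏ i, f i (x i) := by
  simp [pF]

theorem eq_zero_of_pF {J : Type} [Fintype J] {A : J → Type u} [∀ i, CommRing (A i)]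
    [∀ i, Algebra k (A i)] [∀ i, Module.Finite k (A i)] {z : ⨂[k] i, A i}
    (h : ∀ f : ∀ i, A i →ₗ[k] k, pF f z = 0) : z = 0 := by
  classical
  rw [← Module.forall_dual_apply_eq_zero_iff k z]
  intro g
  obtain ⟨t, rfl⟩ := (PiTensorProduct.dualDistribEquiv (R := k) (M := A)).surjective g
  rw [PiTensorProduct.dualDistribEquiv]
  induction t using PiTensorProduct.induction_on with
  | smul_tprod r f =>
    rw [map_smul, LinearMap.smul_apply]
    have h1 : (PiTensorProduct.dualDistribEquivOfBasis
        fun i => Module.Free.chooseBasis k (A i)) (PiTensorProduct.tprod k f) = pF f := by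
      refine PiTensorProduct.ext ?_
      ext x
      simp only [LinearMap.compMultilinearMap_apply]
      rw [pF_tprod]
      exact PiTensorProduct.dualDistrib_apply f x
    rw [h1, h f, smul_zero]
  | add x y hx hy => rw [map_add, LinearMap.add_apply, hx, hy, add_zero]

/-- The kernel of `famMap` in terms of product functionals. -/
theorem mem_ker_famMap [Module.Finite k P] {J : Type} [Fintype J] {I : J → Ideal P}
    {z : ⨂[k] _ : J, P} : z ∈ RingHom.ker (famMap k I) ↔
      ∀ f : J → P →ₗ[k] k, (∀ i, ∀ a ∈ I i, f i a = 0) → pF f z = 0 := by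
  constructor
  · intro hz f hf
    rw [RingHom.mem_ker] at hz
    let f' : ∀ i, (P ⧸ I i) →ₗ[k] k := fun i =>
      Submodule.liftQ ((I i).restrictScalars k) (f i) (fun a ha => hf i a ha)
    have h1 : pF f = pF f' ∘ₗ (famMap k I).toLinearMap := by
      refine PiTensorProduct.ext ?_
      ext x
      simp only [LinearMap.compMultilinearMap_apply, LinearMap.comp_apply,
        AlgHom.toLinearMap_apply, famMap_tprod]
      rw [pF_tprod, pF_tprod]
      rfl
    rw [h1, LinearMap.comp_apply, AlgHom.toLinearMap_apply, hz, map_zero]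
  · intro h
    rw [RingHom.mem_ker]
    refine eq_zero_of_pF fun f' => ?_
    have h1 := h (fun i => f' i ∘ₗ (Ideal.Quotient.mkₐ k (I i)).toLinearMap) (by
      intro i a ha
      rw [LinearMap.comp_apply, AlgHom.toLinearMap_apply, Ideal.Quotient.mkₐ_eq_mk,
        Ideal.Quotient.eq_zero_iff_mem.mpr ha, map_zero])
    have h2 : pF (fun i => f' i ∘ₗ (Ideal.Quotient.mkₐ k (I i)).toLinearMap) =
        pF f' ∘ₗ (famMap k I).toLinearMap := by
      refine PiTensorProduct.ext ?_
      ext x
      simp only [LinearMap.compMultilinearMap_apply, LinearMap.comp_apply,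
        AlgHom.toLinearMap_apply, famMap_tprod]
      rw [pF_tprod, pF_tprod]
      rfl
    rw [h2] at h1
    exact h1

end basic

end Pool.Agent.H23.UVD
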