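import Pool.Agent.H23.UVD.Lim

/-!
# Final forms
-/

open TensorProduct Module Filter Topology

namespace Pool.Agent.H23.UVD

open Pool.Agent.H15.Defect Pool.Agent.H12.Defect Pool.Agent.H14.MM Pool.Agent.H15.CX

universe u

/-- `U_N` is the union of polynomially many of the `N`-th powers. -/
theorem exists_union (k : Type u) [Field k] {P : Type u} [CommRing P] [Algebra k P]
    [Module.Finite k P] (V : Set (Ideal P)) (N : ℕ) :
    ∃ (p : ℕ) (I : Fin p → Ideal P), p ≤ (N + 1) ^ (finrank k P * finrank k P) ∧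
      (∀ j, I j ∈ V) ∧ UI k V N = ⨅ j, RingHom.ker (famMap k fun _ : Fin N => I j) := by
  obtain ⟨p, I, hp, hI, h⟩ := exists_letters (k := k) V N
  refine ⟨p, I, hp, hI, le_antisymm (le_iInf fun j => UI_le (hI j) N) ?_⟩
  refine le_iInf₂ fun I' hI' => ?_
  intro z hz
  rw [mem_ker_famMap]
  intro f hf
  have h1 := h I' hI' f hf
  have h2 : Submodule.span k {φ : (⨂[k] _ : Fin N, P) →ₗ[k] k | ∃ j, φ ∈ pfs k (I j) N} ≤
      LinearMap.ker (LinearMap.applyₗ z) := by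
    rw [Submodule.span_le]
    rintro φ ⟨j, g, hg, rfl⟩
    have h3 := (Submodule.mem_iInf _).mp hz j
    rw [mem_ker_famMap] at h3
    show pF g z = 0
    exact h3 g hg
  exact h2 h1

section q1

variable (k : Type u) [Field k] [IsAlgClosed k]

/-- Q1 in terms of the universal schemes -/
theorem q1_iff_all (hQ : T_Q1D k) :
    (∀ (A : Type u) [CommRing A] [Algebra k A] [Module.Finite k A] [Nontrivial A] (ε : ℝ),
      0 < ε → Tendsto (growthRatio k A ε) atTop (𝓝 0)) ↔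
    ∀ d : ℕ, 1 ≤ d → Tendsto (fun N : ℕ => (DD k (UQ k {I : Ideal (PD k d) | I ≠ ⊤ ∧
        finrank k (PD k d ⧸ I) ≤ d} N) : ℝ) ^ (1 / (N : ℝ))) atTop (𝓝 d) := by
  constructor
  · intro h d hd
    refine (hQ d hd).mp fun A _ _ _ _ hA => ?_
    have h1 := q1_iff.mp (h A)
    rw [h1]
    exact_mod_cast hA
  · intro h A _ _ _ _ ε hε
    have hd : 1 ≤ finrank k A := Module.finrank_pos
    have h1 := (hQ _ hd).mpr (h _ hd) A le_rfl
    exact q1_iff.mpr (le_antisymm h1 finrank_le_Lam) ε hε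

/-- the gap in terms of Q1 -/
theorem gap_q1 (hG : T_GAP k) (d : ℕ) : ∃ ε₀ : ℝ, 0 < ε₀ ∧ ∀ (A : Type u) [CommRing A]
    [Algebra k A] [Module.Finite k A] [Nontrivial A] (n : ℕ), finrank k A = d → 1 ≤ n →
    (DD k (⨂[k] _ : Fin n, A) : ℝ) < (d + ε₀) ^ n →
    ∀ ε : ℝ, 0 < ε → Tendsto (growthRatio k A ε) atTop (𝓝 0) := by
  obtain ⟨ε₀, h0, h⟩ := hG d
  refine ⟨ε₀, h0, fun A _ _ _ _ n hA hn hlt ε hε => ?_⟩
  have h1 := h A n hA.le hn hlt
  refine q1_iff.mpr (le_antisymm ?_ finrank_le_Lam) ε hε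
  rw [hA]
  exact h1

/-- the closedness statement -/
theorem closed_all (hCLS : T_CLS k) (P : Type u) [CommRing P] [Algebra k P] [Module.Finite k P]
    (V : Set (Ideal P)) (d : ℕ) (I : Ideal P) (hne : V.Nonempty) (hV : ∀ I ∈ V, I ≠ ⊤)
    (hI : I ≠ ⊤) (hcl : InCl k V d I) :
    Lam k (P ⧸ I) ≤ LS k V ∧ ∀ N : ℕ, UI k (insert I V) N = UI k V N :=
  ⟨pf_CLO k hCLS P V d I hne hV hI hcl, fun N => UI_insert (hCLS P V d I hcl N)⟩

end q1

end Pool.Agent.H23.UVD
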