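import Pool.Agent.H23.UVD.Fin1
import Pool.Agent.H74.UVD.Q1D

/-!
# Well ordered values and the gap
-/

open TensorProduct Module Filter Topology

namespace Pool.Agent.H23.UVD

open Pool.Agent.H15.Defect Pool.Agent.H12.Defect Pool.Agent.H14.MM Pool.Agent.H15.CX
open Pool.Agent.H74.UVD

universe u

variable (k : Type u) [Field k] [IsAlgClosed k]

/-- the values of the growth rate -/
def Vals : Set ℝ := {r : ℝ | ∃ (A : Type u) (_ : CommRing A) (_ : Algebra k A),
  Module.Finite k A ∧ Nontrivial A ∧ Lam k A = r}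

theorem pf_WF (hWFP : T_WFP k) (hPD : T_PD k) (hPDF : T_PDF k) : T_WF k := by
  classical
  unfold T_WF
  rw [Set.isWF_iff_no_descending_seq]
  intro s hs hmem
  choose A i1 i2 i3 i4 hA using hmem
  set d : ℕ := ⌊s 0⌋₊ with hd
  have hle : ∀ n, finrank k (A n) ≤ d := by
    intro n
    refine Nat.le_floor ?_
    have h1 : (finrank k (A n) : ℝ) ≤ Lam k (A n) := finrank_le_Lam
    have h2 : s n ≤ s 0 := hs.antitone (Nat.zero_le n)
    rw [hA n] at h1
    linarith
  have hex := fun n => hPD d (A n) (hle n)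
  choose f hf using hex
  have : Module.Finite k (PD k d) := hPDF d
  have hL : ∀ n, Lam k (PD k d ⧸ RingHom.ker (f n)) = Lam k (A n) := by
    intro n
    have e := Ideal.quotientKerAlgEquivOfSurjective (hf n)
    have hnt : Nontrivial (PD k d ⧸ RingHom.ker (f n)) := e.toEquiv.nontrivial
    exact le_antisymm (Lam_le_of_surjective e.symm.toAlgHom e.symm.surjective)
      (Lam_le_of_surjective e.toAlgHom e.surjective)
  refine hWFP (PD k d) (fun n => RingHom.ker (f n)) (fun n => RingHom.ker_ne_top _) ?_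
  intro a b hab
  show Lam k (PD k d ⧸ RingHom.ker (f b)) < Lam k (PD k d ⧸ RingHom.ker (f a))
  rw [hL, hL, hA, hA]
  exact hs hab

/-- values close to an integer from above -/
theorem gap_vals (hWF : T_WF k) (d : ℕ) : ∃ ε : ℝ, 0 < ε ∧ ∀ (A : Type u) [CommRing A]
    [Algebra k A] [Module.Finite k A] [Nontrivial A], Lam k A < d + ε → Lam k A ≤ d := by
  classical
  unfold T_WF at hWF
  set S : Set ℝ := {r : ℝ | ∃ (A : Type u) (_ : CommRing A) (_ : Algebra k A),
    Module.Finite k A ∧ Nontrivial A ∧ Lam k A = r} with hS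
  set S' : Set ℝ := {r ∈ S | (d : ℝ) < r} with hS'
  have hWF' : S'.IsWF := hWF.mono (Set.sep_subset _ _)
  by_cases hne : S'.Nonempty
  · have hm := hWF'.min_mem hne
    refine ⟨hWF'.min hne - d, sub_pos.mpr hm.2, ?_⟩
    intro A _ _ _ _ hlt
    by_contra hcon
    rw [not_le] at hcon
    have h1 : Lam k A ∈ S' := ⟨⟨A, inferInstance, inferInstance, inferInstance, inferInstance,
      rfl⟩, hcon⟩
    have h2 := hWF'.min_le hne h1
    linarith
  · refine ⟨1, one_pos, ?_⟩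
    intro A _ _ _ _ _
    by_contra hcon
    rw [not_le] at hcon
    exact hne ⟨Lam k A, ⟨A, inferInstance, inferInstance, inferInstance, inferInstance,
      rfl⟩, hcon⟩

theorem pf_GAP (hWF : T_WF k) : T_GAP k := by
  intro d
  obtain ⟨ε, h0, h⟩ := gap_vals k hWF d
  refine ⟨ε, h0, ?_⟩
  intro A _ _ _ _ n _ hn hlt
  refine h A ?_
  have h1 : Lam k A ^ n ≤ DD k (⨂[k] _ : Fin n, A) := by
    have := Lam_pow_le (k := k) (A := A) hn
    rw [cdeg] at this
    rw [DD, Pool.Agent.H14.RF.finrank_power]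
    exact this
  have h2 : Lam k A ^ n < (d + ε) ^ n := lt_of_le_of_lt h1 hlt
  exact lt_of_pow_lt_pow_left₀ n (by positivity) h2

/-- the test for Q1 in degree at most `d` -/
theorem q1_test (hLIM : T_LIM k) (hPD : T_PD k) (hPDF : T_PDF k) (d : ℕ)
    (hd : 1 ≤ d) {ε : ℝ} (h0 : 0 < ε) (h : ∀ (A : Type u) [CommRing A]
    [Algebra k A] [Module.Finite k A] [Nontrivial A], Lam k A < d + ε → Lam k A ≤ d) :
    List.TFAE [
      ∀ (A : Type u) [CommRing A] [Algebra k A] [Module.Finite k A] [Nontrivial A],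
        finrank k A ≤ d → Lam k A ≤ d,
      Tendsto (fun N : ℕ => (DD k (UQ k {I : Ideal (PD k d) | I ≠ ⊤ ∧
        finrank k (PD k d ⧸ I) ≤ d} N) : ℝ) ^ (1 / (N : ℝ))) atTop (𝓝 d),
      ∃ N : ℕ, 1 ≤ N ∧ (DD k (UQ k {I : Ideal (PD k d) | I ≠ ⊤ ∧
        finrank k (PD k d ⧸ I) ≤ d} N) : ℝ) < (d + ε) ^ N] := by
  have : Module.Finite k (PD k d) := hPDF d
  have hQ := pf_Q1D k hLIM hPD hPDF d hd
  tfae_have 1 ↔ 2 := hQ
  tfae_have 2 → 3 := by
    intro h2
    have h3 : ∀ᶠ N : ℕ in atTop, (DD k (UQ k {I : Ideal (PD k d) | I ≠ ⊤ ∧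
        finrank k (PD k d ⧸ I) ≤ d} N) : ℝ) ^ (1 / (N : ℝ)) < d + ε :=
      h2.eventually (gt_mem_nhds (by linarith))
    obtain ⟨N, hN, hN1⟩ := (h3.and (eventually_ge_atTop 1)).exists
    refine ⟨N, hN1, ?_⟩
    have h4 := pow_lt_pow_left₀ hN (by positivity) (n := N) (by omega)
    rwa [Pool.Agent.H2.WG.rpow_root_pow hN1 (Nat.cast_nonneg _)] at h4
  tfae_have 3 → 1 := by
    rintro ⟨N, hN, hlt⟩ A _ _ _ _ hA
    refine h A ?_
    set V : Set (Ideal (PD k d)) := {I : Ideal (PD k d) | I ≠ ⊤ ∧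
        finrank k (PD k d ⧸ I) ≤ d} with hV
    obtain ⟨f, hf⟩ := hPD d A hA
    have hmem : RingHom.ker f ∈ V := ⟨RingHom.ker_ne_top _, by
      rw [finrank_quot_ker f hf]; exact hA⟩
    have h1 := (hLIM (PD k d) V ⟨_, hmem⟩ fun I hI => hI.1)
    have e := Ideal.quotientKerAlgEquivOfSurjective hf
    have hnt : Nontrivial (PD k d ⧸ RingHom.ker f) := e.toEquiv.nontrivial
    have h2 : Lam k A ≤ LS k V :=
      le_trans (Lam_le_of_surjective e.toAlgHom e.surjective)
        (le_csSup h1.2.2.1 ⟨_, hmem, rfl⟩)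
    have h3 : Lam k A ^ N < (d + ε) ^ N :=
      lt_of_le_of_lt (le_trans (pow_le_pow_left₀ Lam_nonneg h2 N) (h1.2.1 N hN)) hlt
    exact lt_of_pow_lt_pow_left₀ N (by positivity) h3
  tfae_finish

end Pool.Agent.H23.UVD
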