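import Pool.Agent.H23.UVD.Core

/-!
# Few letters, and expansion of words
-/

open TensorProduct Module

namespace Pool.Agent.H23.UVD

open Pool.Agent.H15.Defect Pool.Agent.H12.Defect

universe u

variable {k : Type u} [Field k] {P : Type u} [CommRing P] [Algebra k P]

/-- the functional `f` vanishes on `I` -/
def Kills (I : Ideal P) (f : P →ₗ[k] k) : Prop := ∀ a ∈ I, f a = 0

/-- the product functionals of functionals vanishing on `I` -/
def pfs (k : Type u) [Field k] {P : Type u} [CommRing P] [Algebra k P] (I : Ideal P) (N : ℕ) :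
    Set ((⨂[k] _ : Fin N, P) →ₗ[k] k) :=
  {φ | ∃ f : Fin N → P →ₗ[k] k, (∀ i, Kills I (f i)) ∧ φ = pF f}

/-- For `V`, the product functionals in `N` factors are combinations of the product functionals
for the letters `I j`. -/
def Lett (k : Type u) [Field k] {P : Type u} [CommRing P] [Algebra k P] (V : Set (Ideal P))
    (N : ℕ) {p : ℕ} (I : Fin p → Ideal P) : Prop :=
  ∀ I' ∈ V, ∀ f : Fin N → P →ₗ[k] k, (∀ i, Kills I' (f i)) →
    pF f ∈ Submodule.span k {φ | ∃ j, φ ∈ pfs k (I j) N}

/-- expansion of words -/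
theorem words_le [Module.Finite k P] {V : Set (Ideal P)} {N p : ℕ} {I : Fin p → Ideal P}
    (h : Lett k V N I) (M : ℕ) {J : Type} [Fintype J] (e : J ≃ Fin M × Fin N) {I' : Ideal P}
    (hI' : I' ∈ V) :
    ⨅ w : Fin M → Fin p, RingHom.ker (famMap k fun i : J => I (w (e i).1)) ≤
      RingHom.ker (famMap k fun _ : J => I') := by
  classical
  intro z hz
  rw [mem_ker_famMap]
  intro f hf
  have h1 : ∀ m : Fin M, ∃ (n : ℕ) (c : Fin n → k) (g : Fin n → Fin N → P →ₗ[k] k)
      (j : Fin n → Fin p), (∀ t i, Kills (I (j t)) (g t i)) ∧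
      (pF fun i : Fin N => f (e.symm (m, i))) = ∑ t, c t • pF (g t) := by
    intro m
    have h2 := h I' hI' (fun i => f (e.symm (m, i))) (fun i => hf _)
    obtain ⟨n, c, g, hg⟩ := Submodule.mem_span_set'.mp h2
    have h3 := fun t => (g t).2
    choose j φ hφ1 hφ2 using h3
    refine ⟨n, c, φ, j, hφ1, ?_⟩
    rw [← hg]
    refine Finset.sum_congr rfl fun t _ => ?_
    rw [hφ2 t]
  choose n c g j hk hsum using h1
  have h4 : pF f = ∑ t : ∀ m, Fin (n m), (∏ m, c m (t m)) •
      pF fun i : J => g (e i).1 (t (e i).1) (e i).2 := by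
    refine PiTensorProduct.ext ?_
    ext x
    simp only [LinearMap.compMultilinearMap_apply, LinearMap.sum_apply, LinearMap.smul_apply,
      smul_eq_mul]
    rw [pF_tprod, ← e.symm.prod_comp, Fintype.prod_prod_type]
    have h5 : ∀ m : Fin M, ∏ i : Fin N, f (e.symm (m, i)) (x (e.symm (m, i))) =
        ∑ t : Fin (n m), c m t * ∏ i : Fin N, g m t i (x (e.symm (m, i))) := by
      intro m
      have h6 := congrArg (fun φ => φ (PiTensorProduct.tprod k fun i : Fin N => x (e.symm (m, i))))
        (hsum m)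
      simp only [LinearMap.sum_apply, LinearMap.smul_apply, smul_eq_mul, pF_tprod] at h6
      exact h6
    rw [Finset.prod_congr rfl fun m _ => h5 m, Finset.prod_univ_sum]
    simp only [Fintype.piFinset_univ]
    refine Finset.sum_congr rfl fun t _ => ?_
    rw [Finset.prod_mul_distrib, pF_tprod, ← e.symm.prod_comp, Fintype.prod_prod_type]
    congr 1
    refine Finset.prod_congr rfl fun m _ => Finset.prod_congr rfl fun i _ => ?_
    have h7 : ∀ q q' : Fin M × Fin N, q = q' → g q.1 (t q.1) q.2 = g q'.1 (t q'.1) q'.2 := by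
      rintro q _ rfl
      rfl
    rw [h7 _ _ (e.apply_symm_apply (m, i))]
  rw [h4, LinearMap.sum_apply]
  refine Finset.sum_eq_zero fun t _ => ?_
  rw [LinearMap.smul_apply]
  have h7 : z ∈ RingHom.ker (famMap k fun i : J => I (j (e i).1 (t (e i).1))) := by
    have h8 := (Submodule.mem_iInf _).mp hz (fun m => j m (t m))
    exact h8
  rw [mem_ker_famMap] at h7
  rw [h7 _ fun i => hk (e i).1 (t (e i).1) (e i).2, smul_zero]

/-- A spanning tuple. -/
theorem exists_tuple [Module.Finite k P] (I : Ideal P) :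
    ∃ T : Fin (finrank k P) → P →ₗ[k] k, (∀ i, Kills I (T i)) ∧
      ∀ f : P →ₗ[k] k, Kills I f → f ∈ Submodule.span k (Set.range T) := by
  classical
  let W : Submodule k (Module.Dual k P) := (I.restrictScalars k).dualAnnihilator
  have hW : finrank k W ≤ finrank k P := by
    refine (Submodule.finrank_le W).trans (le_of_eq ?_)
    exact Subspace.dual_finrank_eq
  have hfree : Module.Free k W := Module.Free.of_divisionRing k W
  let b := Module.finBasis k W
  refine ⟨fun i => if h : (i : ℕ) < finrank k W then (b ⟨i, h⟩ : P →ₗ[k] k) else 0, ?_, ?_⟩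
  · intro i a ha
    dsimp only
    split_ifs with h
    · have h1 := (b ⟨i, h⟩).2
      rw [Submodule.mem_dualAnnihilator] at h1
      exact h1 a ha
    · rfl
  · intro f hf
    have hfW : f ∈ W := by
      rw [Submodule.mem_dualAnnihilator]
      intro a ha
      exact hf a ha
    have h1 := b.sum_repr ⟨f, hfW⟩
    have h2 := congrArg (fun w : W => (w : P →ₗ[k] k)) h1
    simp only [Submodule.coe_sum, Submodule.coe_smul] at h2
    rw [← h2]
    refine Submodule.sum_mem _ fun l _ => Submodule.smul_mem _ _ (Submodule.subset_span ?_)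
    refine ⟨⟨l, lt_of_lt_of_le l.2 hW⟩, ?_⟩
    dsimp only
    rw [dif_pos l.2]

/-- the polynomial bound for the number of letters -/
theorem exists_letters [Module.Finite k P] (V : Set (Ideal P)) (N : ℕ) :
    ∃ (p : ℕ) (I : Fin p → Ideal P), p ≤ (N + 1) ^ (finrank k P * finrank k P) ∧
      (∀ j, I j ∈ V) ∧ Lett k V N I := by
  classical
  let K := finrank k P
  let b := Module.finBasis k P
  choose T hT1 hT2 using fun I : Ideal P => exists_tuple (k := k) I
  let tt : Ideal P → Fin K × Fin K → k := fun I q => T I q.1 (b q.2)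
  let S : Set ((Fin N → Fin K × Fin K) → k) :=
    (fun I => Pool.Agent.H2.WG.Mpow N (tt I)) '' V
  obtain ⟨s, hs, hspan, hli⟩ := exists_linearIndependent k S
  let U : Submodule k ((Fin N → Fin K × Fin K) → k) :=
    Submodule.span k (Set.range (Pool.Agent.H2.WG.chi k (Fin K × Fin K) N))
  have hsU : ∀ v : s, (v : (Fin N → Fin K × Fin K) → k) ∈ U := by
    intro v
    obtain ⟨I, _, hI⟩ := hs v.2
    rw [← hI]
    exact Pool.Agent.H2.WG.Mpow_mem_chi N (tt I)
  have hli' : LinearIndependent k (fun v : s => (⟨v, hsU v⟩ : U)) := by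
    apply LinearIndependent.of_comp U.subtype
    exact hli
  have : Fintype s := @Fintype.ofFinite _ hli'.finite
  have hcard : Fintype.card s ≤ (N + 1) ^ (K * K) := by
    refine hli'.fintype_card_le_finrank.trans ?_
    have h1 := finrank_range_le_card (R := k) (Pool.Agent.H2.WG.chi k (Fin K × Fin K) N)
    refine h1.trans (le_of_eq ?_)
    rw [Fintype.card_fun, Fintype.card_fin, Fintype.card_prod, Fintype.card_fin]
  have hpre : ∀ v : s, ∃ I ∈ V, Pool.Agent.H2.WG.Mpow N (tt I) = v := fun v => hs v.2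
  choose g hgV hg using hpre
  let E := (Fintype.equivFin s).symm
  refine ⟨Fintype.card s, fun j => g (E j), hcard, fun j => hgV _, fun I' hI' f hf => ?_⟩
  have hrange : (Set.range fun j => Pool.Agent.H2.WG.Mpow N (tt (g (E j)))) = s := by
    ext v
    constructor
    · rintro ⟨j, rfl⟩
      show Pool.Agent.H2.WG.Mpow N (tt (g (E j))) ∈ s
      rw [hg]
      exact (E j).2
    · intro hv
      refine ⟨E.symm ⟨v, hv⟩, ?_⟩
      show Pool.Agent.H2.WG.Mpow N (tt (g (E (E.symm ⟨v, hv⟩)))) = v
      rw [Equiv.apply_symm_apply, hg]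
  have h1 : Pool.Agent.H2.WG.Mpow N (tt I') ∈ Submodule.span k
      (Set.range fun j => Pool.Agent.H2.WG.Mpow N (tt (g (E j)))) := by
    rw [hrange, hspan]
    exact Submodule.subset_span ⟨I', hI', rfl⟩
  obtain ⟨a, ha⟩ := (Submodule.mem_span_range_iff_exists_fun k).mp h1
  -- products of the members of the tuple
  have h2 : ∀ r : Fin N → Fin K, (pF fun n => T I' (r n)) =
      ∑ j, a j • pF fun n => T (g (E j)) (r n) := by
    intro r
    refine PiTensorProduct.ext ?_
    refine Basis.ext_multilinear (fun _ : Fin N => b) fun l => ?_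
    simp only [LinearMap.compMultilinearMap_apply, LinearMap.sum_apply, LinearMap.smul_apply,
      smul_eq_mul]
    have h3 := congrFun ha (fun n => (r n, l n))
    simp only [Finset.sum_apply, Pi.smul_apply, smul_eq_mul, Pool.Agent.H2.WG.Mpow, tt] at h3
    rw [pF_tprod, ← h3]
    refine Finset.sum_congr rfl fun j _ => ?_
    rw [pF_tprod]
  have h3 : ∀ n, ∃ c : Fin K → k, ∑ i, c i • T I' i = f n := fun n =>
    (Submodule.mem_span_range_iff_exists_fun k).mp (hT2 I' (f n) (hf n))
  choose c hc using h3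
  have h4 : pF f = ∑ r : Fin N → Fin K, (∏ n, c n (r n)) • pF fun n => T I' (r n) := by
    refine PiTensorProduct.ext ?_
    ext x
    simp only [LinearMap.compMultilinearMap_apply, LinearMap.sum_apply, LinearMap.smul_apply,
      smul_eq_mul]
    rw [pF_tprod]
    have h5 : ∀ n, f n (x n) = ∑ i, c n i * T I' i (x n) := by
      intro n
      rw [← hc n]
      simp only [LinearMap.sum_apply, LinearMap.smul_apply, smul_eq_mul]
    rw [Finset.prod_congr rfl fun n _ => h5 n, Finset.prod_univ_sum]
    simp only [Fintype.piFinset_univ]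
    refine Finset.sum_congr rfl fun r _ => ?_
    rw [Finset.prod_mul_distrib, pF_tprod]
  rw [h4]
  refine Submodule.sum_mem _ fun r _ => Submodule.smul_mem _ _ ?_
  rw [h2]
  refine Submodule.sum_mem _ fun j _ => Submodule.smul_mem _ _ (Submodule.subset_span ?_)
  exact ⟨j, fun n => T (g (E j)) (r n), fun n => hT1 _ _, rfl⟩

end Pool.Agent.H23.UVD
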