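import Pool.Agent.H23.UVD.Fin2
import Pool.Agent.H10.UVD.CLS
import Pool.Agent.H4.UVD.WFP
import Pool.Agent.H36.UVD.PD
import Pool.Agent.H15.ER.Main
import Pool.Agent.H2.WG.Main

/-!
# Q1 and one power: the equivalences with a loss `e` in the exponent
-/

open TensorProduct Module Filter Topology MvPolynomial

namespace Pool.Agent.H23.UVD

open Pool.Agent.H12.Defect Pool.Agent.H14.MM Pool.Agent.H15.CX Pool.Agent.H15.Defect
open Pool.Agent.H15.ER Pool.Agent.H2.WG Pool.Agent.H74.UVD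
open Pool.Agent.H14.RF hiding tr

universe u

variable (k : Type u) [Field k] [IsAlgClosed k]

omit [IsAlgClosed k] in
/-- values close to a real number from above -/
theorem gap_real (hWF : T_WF k) (x : ℝ) : ∃ ε : ℝ, 0 < ε ∧ ∀ (A : Type u) [CommRing A]
    [Algebra k A] [Module.Finite k A] [Nontrivial A], Lam k A < x + ε → Lam k A ≤ x := by
  classical
  unfold T_WF at hWF
  set S : Set ℝ := {r : ℝ | ∃ (A : Type u) (_ : CommRing A) (_ : Algebra k A),
    Module.Finite k A ∧ Nontrivial A ∧ Lam k A = r} with hS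
  set S' : Set ℝ := {r ∈ S | x < r} with hS'
  have hWF' : S'.IsWF := hWF.mono (Set.sep_subset _ _)
  by_cases hne : S'.Nonempty
  · have hm := hWF'.min_mem hne
    refine ⟨hWF'.min hne - x, sub_pos.mpr hm.2, ?_⟩
    intro A _ _ _ _ hlt
    by_contra hcon
    rw [not_le] at hcon
    have h1 : Lam k A ∈ S' := ⟨⟨A, inferInstance, inferInstance, inferInstance, inferInstance,
      rfl⟩, hcon⟩
    have h2 := hWF'.min_le hne h1
    linarith
  · refine ⟨1, one_pos, ?_⟩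
    intro A _ _ _ _ _
    by_contra hcon
    rw [not_le] at hcon
    exact hne ⟨Lam k A, ⟨A, inferInstance, inferInstance, inferInstance, inferInstance,
      rfl⟩, hcon⟩

/-- the growth rate and the limits of Q1 above `e` -/
theorem above_iff_Lam {e : ℝ} (he : 0 ≤ e) (A : Type u) [CommRing A] [Algebra k A]
    [Module.Finite k A] [Nontrivial A] :
    (∀ ε : ℝ, e < ε → Tendsto (growthRatio k A ε) atTop (𝓝 0)) ↔
      Lam k A ≤ (finrank k A : ℝ) ^ (1 + e) := by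
  obtain ⟨α⟩ := exists_point (k := k) (A := A)
  constructor
  · intro h
    exact Lam_le_of_bd (Real.rpow_nonneg (Nat.cast_nonneg _) _) (Bd.of_tendsto he α h)
  · intro h ε hε
    exact (bd_of_Lam_le h).tendsto hε

omit [IsAlgClosed k] in
/-- one power of `x` above -/
theorem Lam_lt_of_power {x : ℝ} (hx : 0 ≤ x) (A : Type u) [CommRing A] [Algebra k A]
    [Module.Finite k A] [Nontrivial A] {n : ℕ} (hn : 1 ≤ n)
    (h : (DD k (⨂[k] _ : Fin n, A) : ℝ) < x ^ n) : Lam k A < x := by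
  have h1 : Lam k A ^ n ≤ DD k (⨂[k] _ : Fin n, A) := by
    rw [DD, Pool.Agent.H14.RF.finrank_power]
    exact Lam_pow_le hn
  exact lt_of_pow_lt_pow_left₀ n hx (lt_of_le_of_lt h1 h)

theorem exists_power_of_Lam_lt {x : ℝ} (A : Type u) [CommRing A] [Algebra k A]
    [Module.Finite k A] [Nontrivial A] (h : Lam k A < x) :
    ∃ n : ℕ, 1 ≤ n ∧ (DD k (⨂[k] _ : Fin n, A) : ℝ) < x ^ n := by
  have h3 : ∀ᶠ N : ℕ in atTop, (cdeg k A N : ℝ) ^ (1 / (N : ℝ)) < x :=
    tendsto_cdeg.eventually (gt_mem_nhds h)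
  obtain ⟨N, hN, hN1⟩ := (h3.and (eventually_ge_atTop 1)).exists
  refine ⟨N, hN1, ?_⟩
  have h4 := pow_lt_pow_left₀ hN (Real.rpow_nonneg (Nat.cast_nonneg _) _) (n := N) (by omega)
  rw [Pool.Agent.H2.WG.rpow_root_pow hN1 (Nat.cast_nonneg _)] at h4
  rwa [DD, Pool.Agent.H14.RF.finrank_power]

/-- the set of all nonempty closed subschemes of degree at most `d` of `PD k d` -/
def VV (d : ℕ) : Set (Ideal (PD k d)) := {I | I ≠ ⊤ ∧ finrank k (PD k d ⧸ I) ≤ d}

omit [IsAlgClosed k] in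
theorem VV_nonempty (hPD : T_PD k) {d : ℕ} (hd : 1 ≤ d) : (VV k d).Nonempty := by
  have : Nonempty (Fin d) := ⟨⟨0, hd⟩⟩
  obtain ⟨f₀, hf₀⟩ := hPD d (Fin d → k) (by simp)
  refine ⟨RingHom.ker f₀, ker_ne_top f₀, ?_⟩
  rw [finrank_quot_ker f₀ hf₀]
  simp

/-- the supremum of the growth rates in degree at most `d` -/
theorem Lam_le_LSd (hLIM : T_LIM k) (hPD : T_PD k) (hPDF : T_PDF k) {d : ℕ} (hd : 1 ≤ d)
    (A : Type u) [CommRing A] [Algebra k A] [Module.Finite k A] [Nontrivial A]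
    (hA : finrank k A ≤ d) : Lam k A ≤ LS k (VV k d) := by
  have : Module.Finite k (PD k d) := hPDF d
  have h1 := hLIM (PD k d) (VV k d) (VV_nonempty k hPD hd) fun I hI => hI.1
  obtain ⟨f, hf⟩ := hPD d A hA
  have hmem : RingHom.ker f ∈ VV k d := ⟨RingHom.ker_ne_top _, by
    rw [finrank_quot_ker f hf]; exact hA⟩
  have e := Ideal.quotientKerAlgEquivOfSurjective hf
  have hnt : Nontrivial (PD k d ⧸ RingHom.ker f) := e.toEquiv.nontrivial
  exact le_trans (Lam_le_of_surjective e.toAlgHom e.surjective)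
    (le_csSup h1.2.2.1 ⟨_, hmem, rfl⟩)

omit [IsAlgClosed k] in
theorem LS_le (hPD : T_PD k) (hPDF : T_PDF k) {d : ℕ} (hd : 1 ≤ d) {x : ℝ}
    (h : ∀ (A : Type u) [CommRing A] [Algebra k A] [Module.Finite k A] [Nontrivial A],
      finrank k A ≤ d → Lam k A ≤ x) : LS k (VV k d) ≤ x := by
  have : Module.Finite k (PD k d) := hPDF d
  refine csSup_le ((VV_nonempty k hPD hd).image _) ?_
  rintro _ ⟨I, hI, rfl⟩
  have : Nontrivial (PD k d ⧸ I) := Ideal.Quotient.nontrivial_iff.2 hI.1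
  exact h (PD k d ⧸ I) hI.2

/-- all schemes, in terms of the universal schemes -/
theorem univ_equiv (hLIM : T_LIM k) (hPD : T_PD k) (hPDF : T_PDF k) {e : ℝ} (he : 0 ≤ e)
    (ε : ℕ → ℝ) (h0 : ∀ d, 0 < ε d)
    (hgap : ∀ (d : ℕ) (A : Type u) [CommRing A] [Algebra k A] [Module.Finite k A] [Nontrivial A],
      Lam k A < (d : ℝ) ^ (1 + e) + ε d → Lam k A ≤ (d : ℝ) ^ (1 + e)) :
    List.TFAE [
      ∀ (A : Type u) [CommRing A] [Algebra k A] [Module.Finite k A] [Nontrivial A],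
        Lam k A ≤ (finrank k A : ℝ) ^ (1 + e),
      ∀ d : ℕ, 1 ≤ d → ∃ l : ℝ, l ≤ (d : ℝ) ^ (1 + e) ∧
        Tendsto (fun N : ℕ => (DD k (UQ k (VV k d) N) : ℝ) ^ (1 / (N : ℝ))) atTop (𝓝 l),
      ∀ d : ℕ, 1 ≤ d → ∃ N : ℕ, 1 ≤ N ∧
        (DD k (UQ k (VV k d) N) : ℝ) < ((d : ℝ) ^ (1 + e) + ε d) ^ N] := by
  tfae_have 1 → 2 := by
    intro h d hd
    have : Module.Finite k (PD k d) := hPDF d
    obtain ⟨-, -, hbdd, hlim⟩ := hLIM (PD k d) (VV k d) (VV_nonempty k hPD hd) fun I hI => hI.1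
    refine ⟨LS k (VV k d), LS_le k hPD hPDF hd ?_, hlim⟩
    intro A _ _ _ _ hA
    refine (h A).trans ?_
    exact Real.rpow_le_rpow (Nat.cast_nonneg _) (by exact_mod_cast hA) (by linarith)
  tfae_have 2 → 3 := by
    intro h d hd
    obtain ⟨l, hl, hlim⟩ := h d hd
    have h3 : ∀ᶠ N : ℕ in atTop,
        (DD k (UQ k (VV k d) N) : ℝ) ^ (1 / (N : ℝ)) < (d : ℝ) ^ (1 + e) + ε d :=
      hlim.eventually (gt_mem_nhds (by have := h0 d; linarith))
    obtain ⟨N, hN, hN1⟩ := (h3.and (eventually_ge_atTop 1)).exists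
    refine ⟨N, hN1, ?_⟩
    have h4 := pow_lt_pow_left₀ hN (Real.rpow_nonneg (Nat.cast_nonneg _) _) (n := N) (by omega)
    rwa [Pool.Agent.H2.WG.rpow_root_pow hN1 (Nat.cast_nonneg _)] at h4
  tfae_have 3 → 1 := by
    intro h A _ _ _ _
    have hd : 1 ≤ finrank k A := Module.finrank_pos
    obtain ⟨N, hN, hlt⟩ := h _ hd
    refine hgap _ A ?_
    have : Module.Finite k (PD k (finrank k A)) := hPDF _
    have h1 := hLIM (PD k (finrank k A)) (VV k (finrank k A)) (VV_nonempty k hPD hd)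
      fun I hI => hI.1
    have h2 := Lam_le_LSd k hLIM hPD hPDF hd A le_rfl
    have h3 : Lam k A ^ N < ((finrank k A : ℝ) ^ (1 + e) + ε (finrank k A)) ^ N :=
      lt_of_le_of_lt (le_trans (pow_le_pow_left₀ Lam_nonneg h2 N) (h1.2.1 N hN)) hlt
    refine lt_of_pow_lt_pow_left₀ N ?_ h3
    have h4 := Real.rpow_nonneg (Nat.cast_nonneg (finrank k A) : (0 : ℝ) ≤ _) (1 + e)
    have h5 := h0 (finrank k A)
    linarith
  tfae_finish

end Pool.Agent.H23.UVD
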